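import Pool.Graph.R_pool_sql_team_seeded_47a924f7.T6.H85.LV.ASM
import Pool.Graph.R_pool_sql_team_seeded_47a924f7.T6.H85.LV.DEV1
import Pool.Graph.R_pool_sql_team_seeded_47a924f7.T6.H85.LV.DEV2
import Pool.Graph.R_pool_sql_team_seeded_47a924f7.T6.H85.LV.DEV3
import Pool.Graph.R_pool_sql_team_seeded_47a924f7.T6.H85.LV.ROT
import Pool.Graph.R_pool_sql_team_seeded_47a924f7.T6.H85.LV.FS
import Pool.Graph.R_pool_sql_team_seeded_47a924f7.T6.H85.LV.LOW
import Pool.Graph.R_pool_sql_team_seeded_47a924f7.T6.H85.LV.CONN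
import Pool.Graph.R_pool_sql_team_seeded_47a924f7.T6.H85.LV.SPLIT
import Pool.Graph.R_pool_sql_team_seeded_47a924f7.T6.H85.LV.STAR
import Pool.Graph.R_pool_sql_team_seeded_47a924f7.T6.H85.LV.BLK0
import Pool.Graph.R_pool_sql_team_seeded_47a924f7.T6.H85.LV.BLK
import Pool.Graph.R_pool_sql_team_seeded_47a924f7.T6.H85.LV.GR2
import Pool.Graph.R_pool_sql_team_seeded_47a924f7.T6.H85.LV.GROSS
import Pool.Graph.R_pool_sql_team_seeded_47a924f7.T6.H85.LV.SEP0
import Pool.Graph.R_pool_sql_team_seeded_47a924f7.T6.H85.LV.SEP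
import Pool.Graph.R_pool_sql_team_seeded_47a924f7.T6.H85.LV.PAIR
import Pool.Graph.R_pool_sql_team_seeded_47a924f7.T6.H85.LV.TRANS
import Pool.Graph.R_pool_sql_team_seeded_47a924f7.T6.H85.LV.LOC
import Pool.Graph.R_pool_sql_team_seeded_47a924f7.T6.H85.LV.ANT
import Pool.Graph.R_pool_sql_team_seeded_47a924f7.T6.H85.LV.AFF
import Pool.Graph.R_pool_sql_team_seeded_47a924f7.T6.H85.LV.C0
import Pool.Graph.R_pool_sql_team_seeded_47a924f7.T6.H85.LV.C1
import Pool.Graph.R_pool_sql_team_seeded_47a924f7.T6.H85.LV.C2S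
import Pool.Graph.R_pool_sql_team_seeded_47a924f7.T6.H85.LV.C2B
import Pool.Graph.R_pool_sql_team_seeded_47a924f7.T6.H85.LV.C2C
import Pool.Graph.R_pool_sql_team_seeded_47a924f7.T6.H85.LV.C2D
import Pool.Graph.R_pool_sql_team_seeded_47a924f7.T6.H85.LV.C2E
import Pool.Graph.R_pool_sql_team_seeded_47a924f7.T6.H85.LV.RAD
import Pool.Graph.R_pool_sql_team_seeded_47a924f7.T6.H85.LV.RADD
import Pool.Graph.R_pool_sql_team_seeded_47a924f7.T6.H85.LV.ONE
import Pool.Graph.R_pool_sql_team_seeded_47a924f7.T6.H85.LV.ONED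
import Pool.Graph.R_pool_sql_team_seeded_47a924f7.T6.H85.LV.EQV

/-!
# Liouville equation: all solutions of diameter at most `π`

A `C²` solution `u` of `Δu + e^{2u} = 0` on the plane has `d_g(x,y) ≤ π` for all `x, y`, where
`g = e^{2u} |dz|²`, if and only if its diameter is exactly `π`, if and only if `u` is one of the
functions `log (2λ / (1 + λ² |x - x₀|²))`, `λ > 0` (these are the solutions that are radial up to
translation), or `log (a / cosh (a (⟨x, e⟩ - s)))`, `a > 0`, `|e| = 1` (these are the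
one-dimensional solutions).
-/

set_option autoImplicit false

namespace Pool.Agent.Results.MP_47dd70_an.ExplicitSolutions

open Set

/-- piecewise `C¹` curves `γ : [0, 1] → ℝ²` -/
def PiecewiseC1 (γ : ℝ → ℂ) : Prop :=
  ContinuousOn γ (Icc 0 1) ∧ ∃ (n : ℕ) (t : ℕ → ℝ), t 0 = 0 ∧ t n = 1 ∧
    (∀ i < n, t i < t (i + 1)) ∧ ∀ i < n, ContDiffOn ℝ 1 γ (Icc (t i) (t (i + 1)))

/-- the length `∫₀¹ e^{u(γ(t))} |γ'(t)| dt` of `γ` for the metric `e^{2u} |dz|²` -/
noncomputable def length (u : ℂ → ℝ) (γ : ℝ → ℂ) : ℝ :=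
  ∫ t in (0 : ℝ)..1, Real.exp (u (γ t)) * ‖deriv γ t‖

/-- the length distance `d_g(x, y)` of `g = e^{2u} |dz|²` -/
noncomputable def dg (u : ℂ → ℝ) (x y : ℂ) : ℝ :=
  sInf {L : ℝ | ∃ γ : ℝ → ℂ, PiecewiseC1 γ ∧ γ 0 = x ∧ γ 1 = y ∧ L = length u γ}

/-- `π` is the least upper bound of the distances `d_g(x, y)` -/
def DiameterIsPi (u : ℂ → ℝ) : Prop := IsLUB {r : ℝ | ∃ x y : ℂ, r = dg u x y} Real.pi

/-- `u(x) = φ(|x - x₀|)` -/
def RadialUpToTranslation (u : ℂ → ℝ) : Prop :=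
  ∃ (x₀ : ℂ) (φ : ℝ → ℝ), ∀ x, u x = φ ‖x - x₀‖

/-- `u(x) = f(⟨x, e⟩)` for a unit vector `e` -/
def OneDimensional (u : ℂ → ℝ) : Prop :=
  ∃ (e : ℂ) (f : ℝ → ℝ), ‖e‖ = 1 ∧ ∀ x, u x = f (inner ℝ e x)

/-- `u(x) = log (2λ / (1 + λ² |x - x₀|²))` for some `λ > 0`: the metric is the round sphere
without a point -/
def IsBubble (u : ℂ → ℝ) : Prop :=
  ∃ (x₀ : ℂ) (l : ℝ), 0 < l ∧ ∀ x, u x = Real.log (2 * l / (1 + l ^ 2 * ‖x - x₀‖ ^ 2))

/-- `u(x) = log (a / cosh (a (⟨x, e⟩ - s)))` for some `a > 0` and a unit vector `e`: the metric is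
the universal covering of the round sphere without two antipodal points -/
def IsCosh (u : ℂ → ℝ) : Prop :=
  ∃ (e : ℂ) (a s : ℝ), ‖e‖ = 1 ∧ 0 < a ∧ ∀ x, u x = Real.log (a / Real.cosh (a * (inner ℝ e x - s)))

/-- the Laplacian from the second derivatives along the two coordinate directions -/
theorem lap_of_lines {u : ℂ → ℝ} (hu : ContDiff ℝ 2 u) (x : ℂ) {f g : ℝ → ℝ} {c d : ℝ}
    (h1 : ∀ t, HasDerivAt (fun t : ℝ => u (x + t • (1 : ℂ))) (f t) t) (h2 : HasDerivAt f c 0)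
    (h3 : ∀ t, HasDerivAt (fun t : ℝ => u (x + t • Complex.I)) (g t) t)
    (h4 : HasDerivAt g d 0) : Laplacian.laplacian u x = c + d := by
  have key : ∀ (v : ℂ) (f : ℝ → ℝ) (c : ℝ),
      (∀ t, HasDerivAt (fun t : ℝ => u (x + t • v)) (f t) t) → HasDerivAt f c 0 →
      iteratedFDeriv ℝ 2 u x ![v, v] = c := by
    intro v f c h1 h2
    have e1 : f = fun t : ℝ => fderiv ℝ u (x + t • v) v := by
      funext t
      exact (h1 t).unique (Pool.Agent.T6.H85.LV.ONE.line1 hu x v t)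
    have e2 := Pool.Agent.T6.H85.LV.ONE.line2 hu x v 0
    rw [← e1] at e2
    have := h2.unique e2
    rw [this]
    simp
  rw [InnerProductSpace.laplacian_eq_iteratedFDeriv_complexPlane]
  show iteratedFDeriv ℝ 2 u x ![1, 1] + iteratedFDeriv ℝ 2 u x ![Complex.I, Complex.I] = c + d
  rw [key 1 f c h1 h2, key Complex.I g d h3 h4]

/-- the bubbles on a line -/
theorem bubble_line (l A B : ℝ) (hl : 0 < l) :
    (∀ t, HasDerivAt (fun t : ℝ => Real.log (2 * l / (1 + l ^ 2 * ((A + t) ^ 2 + B ^ 2))))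
      (-(2 * l ^ 2 * (A + t)) / (1 + l ^ 2 * ((A + t) ^ 2 + B ^ 2))) t) ∧
    HasDerivAt (fun t : ℝ => -(2 * l ^ 2 * (A + t)) / (1 + l ^ 2 * ((A + t) ^ 2 + B ^ 2)))
      ((-(2 * l ^ 2) * (1 + l ^ 2 * (A ^ 2 + B ^ 2)) + 4 * l ^ 4 * A ^ 2) /
        (1 + l ^ 2 * (A ^ 2 + B ^ 2)) ^ 2) 0 := by
  have hpos : ∀ t : ℝ, 0 < 1 + l ^ 2 * ((A + t) ^ 2 + B ^ 2) := fun t => by positivity
  have hN : ∀ t : ℝ, HasDerivAt (fun t : ℝ => 1 + l ^ 2 * ((A + t) ^ 2 + B ^ 2))
      (l ^ 2 * (2 * (A + t))) t := by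
    intro t
    have h1 : HasDerivAt (fun t : ℝ => A + t) 1 t := by
      simpa using (hasDerivAt_id t).const_add A
    have h2 := (((h1.pow 2).add_const (B ^ 2)).const_mul (l ^ 2)).const_add 1
    refine h2.congr_deriv ?_
    simp
  constructor
  · intro t
    have h1 := (hasDerivAt_const t (Real.log (2 * l))).sub ((hN t).log (hpos t).ne')
    refine (h1.congr_of_eventuallyEq ?_).congr_deriv ?_
    · filter_upwards with y
      show _ = Real.log (2 * l) - Real.log (1 + l ^ 2 * ((A + y) ^ 2 + B ^ 2))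
      rw [Real.log_div (by positivity) (hpos y).ne']
    · ring
  · have h1 : HasDerivAt (fun t : ℝ => -(2 * l ^ 2 * (A + t))) (-(2 * l ^ 2)) 0 := by
      have := (((hasDerivAt_id (0 : ℝ)).const_add A).const_mul (2 * l ^ 2)).neg
      exact this.congr_deriv (by ring)
    have h2 := h1.div (hN 0) (hpos 0).ne'
    refine h2.congr_deriv ?_
    simp only [add_zero]
    congr 1
    ring

/-- the one-dimensional solutions on a line -/
theorem cosh_line (a S k : ℝ) (ha : 0 < a) :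
    (∀ t, HasDerivAt (fun t : ℝ => Real.log (a / Real.cosh (a * (S + t * k))))
      (-(a * k) * Real.sinh (a * (S + t * k)) / Real.cosh (a * (S + t * k))) t) ∧
    HasDerivAt (fun t : ℝ => -(a * k) * Real.sinh (a * (S + t * k)) / Real.cosh (a * (S + t * k)))
      (-(a ^ 2 * k ^ 2) / Real.cosh (a * S) ^ 2) 0 := by
  have hw : ∀ t : ℝ, HasDerivAt (fun t : ℝ => a * (S + t * k)) (a * k) t := by
    intro t
    have := (((hasDerivAt_id t).mul_const k).const_add S).const_mul a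
    simpa using this
  have hpos : ∀ t : ℝ, 0 < Real.cosh (a * (S + t * k)) := fun t => Real.cosh_pos _
  constructor
  · intro t
    have h1 := (hasDerivAt_const t (Real.log a)).sub ((hw t).cosh.log (hpos t).ne')
    refine (h1.congr_of_eventuallyEq ?_).congr_deriv ?_
    · filter_upwards with y
      show _ = Real.log a - Real.log (Real.cosh (a * (S + y * k)))
      rw [Real.log_div ha.ne' (hpos y).ne']
    · ring
  · have h2 := ((hw 0).sinh.const_mul (-(a * k))).div (hw 0).cosh (hpos 0).ne'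
    refine h2.congr_deriv ?_
    simp only [zero_mul, add_zero]
    congr 1
    have := Real.cosh_sq (a * S)
    linear_combination (-(a * k) * (a * k)) * this

theorem bubble_sol {u : ℂ → ℝ} (h : IsBubble u) :
    ContDiff ℝ 2 u ∧ ∀ z, Laplacian.laplacian u z + Real.exp (2 * u z) = 0 := by
  obtain ⟨x₀, l, hl, hu⟩ := h
  have hC : ContDiff ℝ 2 u := by
    have e : u = fun x => Real.log (2 * l / (1 + l ^ 2 * ‖x - x₀‖ ^ 2)) := funext hu
    rw [e]
    have h1 : ContDiff ℝ 2 fun x : ℂ => ‖x - x₀‖ ^ 2 := (contDiff_id.sub contDiff_const).norm_sq ℝ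
    have h2 : ∀ x : ℂ, (0 : ℝ) < 1 + l ^ 2 * ‖x - x₀‖ ^ 2 := fun x => by positivity
    exact (contDiff_const.div (contDiff_const.add (contDiff_const.mul h1))
      (fun x => (h2 x).ne')).log (fun x => (div_pos (by positivity) (h2 x)).ne')
  refine ⟨hC, fun z => ?_⟩
  obtain ⟨b1, b2⟩ := bubble_line l (z.re - x₀.re) (z.im - x₀.im) hl
  obtain ⟨b3, b4⟩ := bubble_line l (z.im - x₀.im) (z.re - x₀.re) hl
  have e1 : (fun t : ℝ => u (z + t • (1 : ℂ))) = fun t : ℝ => Real.log (2 * l /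
      (1 + l ^ 2 * ((z.re - x₀.re + t) ^ 2 + (z.im - x₀.im) ^ 2))) := by
    funext t
    rw [hu, Complex.sq_norm, Complex.normSq_apply]
    congr 4
    simp
    ring
  have e2 : (fun t : ℝ => u (z + t • Complex.I)) = fun t : ℝ => Real.log (2 * l /
      (1 + l ^ 2 * ((z.im - x₀.im + t) ^ 2 + (z.re - x₀.re) ^ 2))) := by
    funext t
    rw [hu, Complex.sq_norm, Complex.normSq_apply]
    congr 4
    simp
    ring
  rw [lap_of_lines hC z (by rw [e1]; exact b1) b2 (by rw [e2]; exact b3) b4, hu z,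
    Complex.sq_norm, Complex.normSq_apply]
  have e3 : ((z - x₀).re * (z - x₀).re + (z - x₀).im * (z - x₀).im) =
      (z.re - x₀.re) ^ 2 + (z.im - x₀.im) ^ 2 := by
    simp
    ring
  rw [e3]
  generalize z.re - x₀.re = A
  generalize z.im - x₀.im = B
  have hN : 0 < 1 + l ^ 2 * (A ^ 2 + B ^ 2) := by positivity
  rw [show 2 * Real.log (2 * l / (1 + l ^ 2 * (A ^ 2 + B ^ 2))) =
    Real.log (2 * l / (1 + l ^ 2 * (A ^ 2 + B ^ 2))) +
      Real.log (2 * l / (1 + l ^ 2 * (A ^ 2 + B ^ 2))) by ring, Real.exp_add,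
    Real.exp_log (by positivity), add_comm (B ^ 2) (A ^ 2)]
  field_simp
  ring

theorem cosh_sol {u : ℂ → ℝ} (h : IsCosh u) :
    ContDiff ℝ 2 u ∧ ∀ z, Laplacian.laplacian u z + Real.exp (2 * u z) = 0 := by
  obtain ⟨e, a, s, he, ha, hu⟩ := h
  have hC : ContDiff ℝ 2 u := by
    have e' : u = fun x => Real.log (a / Real.cosh (a * (inner ℝ e x - s))) := funext hu
    rw [e']
    have h1 : ContDiff ℝ 2 fun x : ℂ => a * ((inner ℝ e x : ℝ) - s) :=
      contDiff_const.mul ((contDiff_const.inner ℝ contDiff_id).sub contDiff_const)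
    exact (contDiff_const.div h1.cosh (fun x => (Real.cosh_pos _).ne')).log
      (fun x => (div_pos ha (Real.cosh_pos _)).ne')
  refine ⟨hC, fun z => ?_⟩
  obtain ⟨b1, b2⟩ := cosh_line a (inner ℝ e z - s) e.re ha
  obtain ⟨b3, b4⟩ := cosh_line a (inner ℝ e z - s) e.im ha
  have e1 : (fun t : ℝ => u (z + t • (1 : ℂ))) = fun t : ℝ =>
      Real.log (a / Real.cosh (a * (inner ℝ e z - s + t * e.re))) := by
    funext t
    rw [hu, inner_add_right, inner_smul_right]
    congr 4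
    simp [Complex.inner]
    ring
  have e2 : (fun t : ℝ => u (z + t • Complex.I)) = fun t : ℝ =>
      Real.log (a / Real.cosh (a * (inner ℝ e z - s + t * e.im))) := by
    funext t
    rw [hu, inner_add_right, inner_smul_right]
    congr 4
    simp [Complex.inner]
    ring
  have he2 : e.re ^ 2 + e.im ^ 2 = 1 := by
    have := Complex.sq_norm e
    rw [he, Complex.normSq_apply] at this
    nlinarith
  rw [lap_of_lines hC z (by rw [e1]; exact b1) b2 (by rw [e2]; exact b3) b4, hu z]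
  generalize (inner ℝ e z : ℝ) - s = S
  have hc := Real.cosh_pos (a * S)
  rw [show 2 * Real.log (a / Real.cosh (a * S)) = Real.log (a / Real.cosh (a * S)) +
    Real.log (a / Real.cosh (a * S)) by ring, Real.exp_add, Real.exp_log (by positivity)]
  have e4 : -(a ^ 2 * e.re ^ 2) / Real.cosh (a * S) ^ 2 + -(a ^ 2 * e.im ^ 2) /
      Real.cosh (a * S) ^ 2 = -(a ^ 2 * (e.re ^ 2 + e.im ^ 2)) / Real.cosh (a * S) ^ 2 := by ring
  rw [e4, he2]
  field_simp
  ring

open Pool.Agent.T6.H85.LV in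
theorem le_iff (u : ℂ → ℝ) (hC2 : ContDiff ℝ 2 u)
    (hL : ∀ z, Laplacian.laplacian u z + Real.exp (2 * u z) = 0)
    (hg : ∀ x y, gdist u x y ≤ Real.pi) : IsRadial u ∨ IsOneDim u :=
  ASM.forward dev1 dev2 dev3 rot star blk0
    (pair fs (low fs) conn split (gross blk0 (gr2 blk)) (sep blk sep0))
    (loc blk trans) (ant rot star blk0 (loc blk trans)) (c0 aff) (c1 trans rot star (c0 aff))
    (c2s blk) c2b c2c c2d (c2e aff) u ⟨hC2, hL⟩ hg

open Pool.Agent.T6.H85.LV in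
theorem main (u : ℂ → ℝ) (hC2 : ContDiff ℝ 2 u)
    (hL : ∀ z, Laplacian.laplacian u z + Real.exp (2 * u z) = 0) :
    (RadialUpToTranslation u ↔ IsBubble u) ∧ (OneDimensional u ↔ IsCosh u) ∧
    ((∀ x y, dg u x y ≤ Real.pi) ↔ (IsBubble u ∨ IsCosh u)) ∧
    (DiameterIsPi u ↔ (IsBubble u ∨ IsCosh u)) ∧
    (¬ (IsBubble u ∨ IsCosh u) → ∃ x y, Real.pi < dg u x y) := by
  have hd : ∀ x y, dg u x y = gdist u x y := fun x y => eqv u hC2.continuous x y
  have hR : RadialUpToTranslation u ↔ IsBubble u := by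
    constructor
    · exact fun h => rad u ⟨hC2, hL⟩ h
    · rintro ⟨x₀, l, -, h⟩
      exact ⟨x₀, fun r => Real.log (2 * l / (1 + l ^ 2 * r ^ 2)), h⟩
  have hO : OneDimensional u ↔ IsCosh u := by
    constructor
    · exact fun h => one u ⟨hC2, hL⟩ h
    · rintro ⟨e, a, s, he, -, h⟩
      exact ⟨e, fun r => Real.log (a / Real.cosh (a * (r - s))), he, h⟩
  have hD : (IsBubble u ∨ IsCosh u) → DiameterIsPi u := by
    unfold DiameterIsPi
    simp only [hd]
    rintro (⟨x₀, l, hl, he⟩ | ⟨e, a, s₀, hen, ha, he⟩)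
    · exact radd fs (low fs) conn u x₀ l hl he
    · exact oned fs (low fs) conn u e a s₀ hen ha he
  have hle : (∀ x y, dg u x y ≤ Real.pi) → (IsBubble u ∨ IsCosh u) := by
    intro h
    simp only [hd] at h
    rcases le_iff u hC2 hL h with h1 | h1
    · exact Or.inl (hR.1 h1)
    · exact Or.inr (hO.1 h1)
  have hpi : DiameterIsPi u → ∀ x y, dg u x y ≤ Real.pi := fun h x y => h.1 ⟨x, y, rfl⟩
  refine ⟨hR, hO, ⟨hle, fun h => hpi (hD h)⟩, ⟨fun h => hle (hpi h), hD⟩, fun h => ?_⟩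
  by_contra hc
  push Not at hc
  exact h (hle hc)

/-- **All solutions of the Liouville equation of diameter at most `π`.** Let `u : ℝ² → ℝ` be any
function and write `g = e^{2u} |dz|²`.

(A) `u` is a `C²` solution of `Δu + e^{2u} = 0` on the plane with `d_g(x, y) ≤ π` for all `x, y` if
and only if `u(x) = log (2λ / (1 + λ² |x - x₀|²))` for some `λ > 0`, `x₀`, or
`u(x) = log (a / cosh (a (⟨x, e⟩ - s)))` for some `a > 0`, `s` and a unit vector `e`.

(B) If `u` is a `C²` solution then: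
(1) `u` is radial up to translation if and only if it is of the first form;
(2) `u` is one-dimensional if and only if it is of the second form;
(3) the diameter is equal to `π` if and only if `d_g(x, y) ≤ π` for all `x, y`, and if and only if
`u` is radial up to translation or one-dimensional;
(4) if `u` is neither radial up to translation nor one-dimensional then `d_g(x, y) > π` for some
`x, y`. -/
theorem result (u : ℂ → ℝ) :
    ((ContDiff ℝ 2 u ∧ (∀ z, Laplacian.laplacian u z + Real.exp (2 * u z) = 0) ∧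
        ∀ x y, dg u x y ≤ Real.pi) ↔ (IsBubble u ∨ IsCosh u)) ∧
    (ContDiff ℝ 2 u → (∀ z, Laplacian.laplacian u z + Real.exp (2 * u z) = 0) →
      (RadialUpToTranslation u ↔ IsBubble u) ∧ (OneDimensional u ↔ IsCosh u) ∧
      (DiameterIsPi u ↔ ∀ x y, dg u x y ≤ Real.pi) ∧
      (DiameterIsPi u ↔ RadialUpToTranslation u ∨ OneDimensional u) ∧
      (¬ (RadialUpToTranslation u ∨ OneDimensional u) → ∃ x y, Real.pi < dg u x y)) := by
  constructor
  · constructor
    · rintro ⟨h1, h2, h3⟩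
      exact (main u h1 h2).2.2.1.1 h3
    · intro h
      have hs : ContDiff ℝ 2 u ∧ ∀ z, Laplacian.laplacian u z + Real.exp (2 * u z) = 0 := by
        rcases h with h | h
        · exact bubble_sol h
        · exact cosh_sol h
      exact ⟨hs.1, hs.2, (main u hs.1 hs.2).2.2.1.2 h⟩
  · intro h1 h2
    obtain ⟨hR, hO, h3, h4, h5⟩ := main u h1 h2
    refine ⟨hR, hO, h4.trans h3.symm, ?_, ?_⟩
    · rw [hR, hO]
      exact h4
    · rw [hR, hO]
      exact h5

end Pool.Agent.Results.MP_47dd70_an.ExplicitSolutions
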